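import Pool.Agent.Lib.MP_b1a3a4_al.MVS.Interfaces

/-!
# Project MVS, module CUT (4.1): cut and push
-/

set_option autoImplicit false
set_option linter.all false

namespace Pool.Agent.Lib.MP_b1a3a4_al.MVS.H19

open Finsupp

variable {k G : Type} [CommRing k] [Group G] (χ : Chr G)

/-- All positions of `v` have the property `P`. -/
def PS (P : ℝ → Prop) {X : Type} (v : X →₀ MonoidAlgebra k G) : Prop :=
  ∀ x, ∀ g ∈ (v x).coeff.support, P (val χ g)

variable {χ}

lemma PS.mono {P Q : ℝ → Prop} (h : ∀ t, P t → Q t) {X : Type} {v : X →₀ MonoidAlgebra k G}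
    (hv : PS χ P v) : PS χ Q v := fun x g hg => h _ (hv x g hg)

lemma PS.zero {P : ℝ → Prop} {X : Type} : PS χ P (0 : X →₀ MonoidAlgebra k G) := by
  intro x g hg
  simp at hg

lemma PS.add {P : ℝ → Prop} {X : Type} {v w : X →₀ MonoidAlgebra k G}
    (hv : PS χ P v) (hw : PS χ P w) : PS χ P (v + w) := by
  classical
  intro x g hg
  rw [Finsupp.add_apply, MonoidAlgebra.coeff_add] at hg
  rcases Finset.mem_union.1 (Finsupp.support_add hg) with h | h
  · exact hv x g h
  · exact hw x g h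

lemma PS.neg {P : ℝ → Prop} {X : Type} {v : X →₀ MonoidAlgebra k G}
    (hv : PS χ P v) : PS χ P (-v) := by
  intro x g hg
  apply hv x g
  rw [Finsupp.neg_apply, MonoidAlgebra.coeff_neg] at hg
  simpa using hg

lemma PS.sub {P : ℝ → Prop} {X : Type} {v w : X →₀ MonoidAlgebra k G}
    (hv : PS χ P v) (hw : PS χ P w) : PS χ P (v - w) := by
  rw [sub_eq_add_neg]
  exact hv.add hw.neg

lemma PS.sum {P : ℝ → Prop} {X ι : Type} (s : Finset ι) (f : ι → (X →₀ MonoidAlgebra k G))
    (h : ∀ i ∈ s, PS χ P (f i)) : PS χ P (∑ i ∈ s, f i) := by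
  classical
  induction s using Finset.induction_on with
  | empty => simpa using PS.zero
  | insert a s ha ih =>
    rw [Finset.sum_insert ha]
    exact (h a (Finset.mem_insert_self a s)).add
      (ih fun i hi => h i (Finset.mem_insert_of_mem hi))

lemma PS.smul {P Q S : ℝ → Prop} (hPQ : ∀ s t, P s → Q t → S (s + t)) {X : Type}
    {r : MonoidAlgebra k G} (hr : ∀ g ∈ r.coeff.support, P (val χ g))
    {w : X →₀ MonoidAlgebra k G} (hw : PS χ Q w) : PS χ S (r • w) := by
  classical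
  intro x g hg
  rw [Finsupp.smul_apply, smul_eq_mul] at hg
  have h2 := MonoidAlgebra.support_coeff_mul_subset _ _ hg
  obtain ⟨a, ha, b, hb, rfl⟩ := Finset.mem_mul.1 h2
  rw [val_mul]
  exact hPQ _ _ (hr a ha) (hw x b hb)

/-- A linear map whose values on the basis have positions in `Q` maps vectors with positions in
`P` to vectors with positions in `S`, if `P + Q` is contained in `S`. -/
lemma PS.map {P Q S : ℝ → Prop} (hPQ : ∀ s t, P s → Q t → S (s + t)) {X Y : Type}
    (A : (X →₀ MonoidAlgebra k G) →ₗ[MonoidAlgebra k G] (Y →₀ MonoidAlgebra k G))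
    (hA : ∀ x, PS χ Q (A (Finsupp.single x 1))) {v : X →₀ MonoidAlgebra k G}
    (hv : PS χ P v) : PS χ S (A v) := by
  classical
  have h : A v = ∑ x ∈ v.support, v x • A (Finsupp.single x 1) := by
    conv_lhs => rw [← Finsupp.sum_single v]
    rw [Finsupp.sum, map_sum]
    refine Finset.sum_congr rfl fun x _ => ?_
    rw [← map_smul, Finsupp.smul_single, smul_eq_mul, mul_one]
  rw [h]
  exact PS.sum _ _ fun x _ => PS.smul hPQ (hv x) (hA x)

/-- The positions of one vector are bounded. -/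
lemma exists_abs_le {X : Type} (v : X →₀ MonoidAlgebra k G) :
    ∃ c : ℝ, 0 ≤ c ∧ PS χ (fun t => |t| ≤ c) v := by
  classical
  refine ⟨∑ x ∈ v.support, ∑ g ∈ (v x).coeff.support, |val χ g|,
    Finset.sum_nonneg fun x _ => Finset.sum_nonneg fun g _ => abs_nonneg _, ?_⟩
  intro x g hg
  have hx : x ∈ v.support := by
    rw [Finsupp.mem_support_iff]
    intro h0
    rw [h0] at hg
    simp at hg
  calc |val χ g| ≤ ∑ g ∈ (v x).coeff.support, |val χ g| :=
        Finset.single_le_sum (f := fun g => |val χ g|) (fun _ _ => abs_nonneg _) hg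
    _ ≤ _ := Finset.single_le_sum
        (f := fun x => ∑ g ∈ (v x).coeff.support, |val χ g|)
        (fun _ _ => Finset.sum_nonneg fun g _ => abs_nonneg _) hx

/-- The displacement of a matrix with finitely many rows is bounded. -/
lemma exists_disp {X Y : Type} [Finite X]
    (A : (X →₀ MonoidAlgebra k G) →ₗ[MonoidAlgebra k G] (Y →₀ MonoidAlgebra k G)) :
    ∃ c : ℝ, 0 ≤ c ∧ ∀ x, PS χ (fun t => |t| ≤ c) (A (Finsupp.single x 1)) := by
  classical
  haveI := Fintype.ofFinite X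
  choose c hc0 hc using fun x : X => exists_abs_le (χ := χ) (A (Finsupp.single x 1))
  refine ⟨∑ x, c x, Finset.sum_nonneg fun x _ => hc0 x, fun x => ?_⟩
  exact (hc x).mono fun t ht => ht.trans
    (Finset.single_le_sum (f := c) (fun y _ => hc0 y) (Finset.mem_univ x))

/-- A positive vector has positions `≥ δ` for some `δ > 0`. -/
lemma exists_pos_vec {X : Type} (v : X →₀ MonoidAlgebra k G) (hv : PosV χ v) :
    ∃ δ : ℝ, 0 < δ ∧ PS χ (fun t => δ ≤ t) v := by
  classical
  by_cases hne : (v.support.biUnion fun x => (v x).coeff.support).Nonempty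
  · obtain ⟨g₀, hg₀, hmin⟩ := Finset.exists_min_image _ (fun g => val χ g) hne
    obtain ⟨x₀, _, hx₀⟩ := Finset.mem_biUnion.1 hg₀
    refine ⟨val χ g₀, hv x₀ g₀ hx₀, fun x g hg => ?_⟩
    refine hmin g (Finset.mem_biUnion.2 ⟨x, ?_, hg⟩)
    rw [Finsupp.mem_support_iff]
    intro h0
    rw [h0] at hg
    simp at hg
  · refine ⟨1, one_pos, fun x g hg => ?_⟩
    exfalso
    refine hne ⟨g, Finset.mem_biUnion.2 ⟨x, ?_, hg⟩⟩
    rw [Finsupp.mem_support_iff]
    intro h0
    rw [h0] at hg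
    simp at hg

lemma exists_pos {X Y : Type} [Finite X] (f : X → (Y →₀ MonoidAlgebra k G))
    (hf : ∀ x, PosV χ (f x)) : ∃ δ : ℝ, 0 < δ ∧ ∀ x, PS χ (fun t => δ ≤ t) (f x) := by
  classical
  haveI := Fintype.ofFinite X
  choose δ h0 hδ using fun x : X => exists_pos_vec (χ := χ) (f x) (hf x)
  rcases isEmpty_or_nonempty X with h | h
  · exact ⟨1, one_pos, fun x => (h.false x).elim⟩
  · obtain ⟨x₀, hx₀⟩ := Finite.exists_min δ
    exact ⟨δ x₀, h0 x₀, fun x => (hδ x).mono fun t ht => (hx₀ x).trans ht⟩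

variable (χ)

/-- The part of `v` at positions `< M`. -/
noncomputable def lo (M : ℝ) {X : Type} (v : X →₀ MonoidAlgebra k G) :
    X →₀ MonoidAlgebra k G :=
  haveI : DecidablePred fun g : G => val χ g < M := Classical.decPred _
  v.mapRange (fun r => MonoidAlgebra.ofCoeff (r.coeff.filter fun g => val χ g < M))
    (by
      rw [MonoidAlgebra.coeff_zero, Finsupp.filter_zero]
      rfl)

variable {χ}

lemma mem_lo {M : ℝ} {X : Type} {v : X →₀ MonoidAlgebra k G} {x : X} {g : G}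
    (hg : g ∈ (lo χ M v x).coeff.support) : g ∈ (v x).coeff.support ∧ val χ g < M := by
  classical
  rw [lo, Finsupp.mapRange_apply, MonoidAlgebra.coeff_ofCoeff, Finsupp.support_filter,
    Finset.mem_filter] at hg
  exact hg

lemma mem_hi {M : ℝ} {X : Type} {v : X →₀ MonoidAlgebra k G} {x : X} {g : G}
    (hg : g ∈ ((v - lo χ M v) x).coeff.support) : g ∈ (v x).coeff.support ∧ M ≤ val χ g := by
  classical
  rw [Finsupp.mem_support_iff, Finsupp.sub_apply, MonoidAlgebra.coeff_sub, Finsupp.sub_apply, lo,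
    Finsupp.mapRange_apply, MonoidAlgebra.coeff_ofCoeff] at hg
  by_cases h : val χ g < M
  · rw [MonoidAlgebra.coeff_ofCoeff, Finsupp.filter_apply_pos (fun g => val χ g < M) _ h, sub_self] at hg
    exact absurd rfl hg
  · rw [MonoidAlgebra.coeff_ofCoeff, Finsupp.filter_apply_neg (fun g => val χ g < M) _ h, sub_zero] at hg
    exact ⟨Finsupp.mem_support_iff.2 hg, not_lt.1 h⟩

/-- one degree of the statement -/
lemma cut_one {X₀ X₁ X₂ : Type} [Finite X₀] [Finite X₁]
    (d₁ : (X₁ →₀ MonoidAlgebra k G) →ₗ[MonoidAlgebra k G] (X₀ →₀ MonoidAlgebra k G))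
    (d₂ : (X₂ →₀ MonoidAlgebra k G) →ₗ[MonoidAlgebra k G] (X₁ →₀ MonoidAlgebra k G))
    (hd : ∀ z, d₁ (d₂ z) = 0)
    (s₁ : (X₀ →₀ MonoidAlgebra k G) →ₗ[MonoidAlgebra k G] (X₁ →₀ MonoidAlgebra k G))
    (s₂ : (X₁ →₀ MonoidAlgebra k G) →ₗ[MonoidAlgebra k G] (X₂ →₀ MonoidAlgebra k G))
    (hs : ∀ x, PosV χ (Finsupp.single x 1 - d₂ (s₂ (Finsupp.single x 1)) -
      s₁ (d₁ (Finsupp.single x 1)))) :
    ∃ C : ℝ, 0 ≤ C ∧ ∀ (b : X₁ →₀ MonoidAlgebra k G) (D : ℝ), LB χ (-D) (d₁ b) →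
      ∃ b', d₁ b' = d₁ b ∧ LB χ (-D - C) b' ∧ ∀ U : ℝ, UB χ U b → UB χ (max U (-D + C)) b' := by
  classical
  obtain ⟨c₁, hc₁0, hc₁⟩ := exists_disp (χ := χ) d₁
  obtain ⟨c₂, hc₂0, hc₂⟩ := exists_disp (χ := χ) s₁
  set φ : (X₁ →₀ MonoidAlgebra k G) →ₗ[MonoidAlgebra k G] (X₁ →₀ MonoidAlgebra k G) :=
    LinearMap.id - d₂ ∘ₗ s₂ - s₁ ∘ₗ d₁ with hφ
  obtain ⟨c₃, hc₃0, hc₃⟩ := exists_disp (χ := χ) φ
  obtain ⟨δ, hδ0, hδ⟩ := exists_pos (χ := χ) (fun x => φ (Finsupp.single x 1)) hs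
  set C : ℝ := c₁ + c₂ + c₃ with hC
  refine ⟨C, by positivity, fun b D hb => ?_⟩
  set M : ℝ := -D with hM
  -- one step
  have step : ∀ (a : ℝ) (u : X₁ →₀ MonoidAlgebra k G), d₁ u = d₁ b → LB χ a u →
      ∃ u', d₁ u' = d₁ b ∧ LB χ (min (M - C) (a + δ)) u' ∧
        ∀ U : ℝ, UB χ U u → UB χ (max U (M + C)) u' := by
    intro a u hu ha
    set l := lo χ M u with hl
    have hlP : ∀ P : ℝ → Prop, PS χ P u → PS χ P l := fun P h x g hg => h x g (mem_lo hg).1
    have hhP : ∀ P : ℝ → Prop, PS χ P u → PS χ P (u - l) := fun P h x g hg =>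
      h x g (mem_hi hg).1
    have hl1 : PS χ (fun t => t < M) l := fun x g hg => (mem_lo hg).2
    have hh1 : PS χ (fun t => M ≤ t) (u - l) := fun x g hg => (mem_hi hg).2
    have hdl : d₁ l = d₁ b - d₁ (u - l) := by rw [map_sub, hu]; abel
    have e : u - d₂ (s₂ l) = (u - l) + φ l + s₁ (d₁ l) := by
      simp only [hφ, LinearMap.sub_apply, LinearMap.id_apply, LinearMap.comp_apply]
      abel
    have hdlL : PS χ (fun t => M - c₁ ≤ t) (d₁ l) := by
      rw [hdl]
      refine PS.sub (PS.mono (P := fun t => M ≤ t) (fun t ht => by linarith) hb) ?_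
      exact PS.map (P := fun t => M ≤ t) (Q := fun t => |t| ≤ c₁)
        (fun s t h1 h2 => by have := abs_le.1 h2; linarith [this.1]) d₁ hc₁ hh1
    have hdlU : PS χ (fun t => t ≤ M + c₁) (d₁ l) :=
      PS.map (P := fun t => t < M) (Q := fun t => |t| ≤ c₁)
        (fun s t h1 h2 => by have := abs_le.1 h2; linarith [this.2]) d₁ hc₁ hl1
    refine ⟨u - d₂ (s₂ l), by rw [map_sub, hd, sub_zero, hu], ?_, ?_⟩
    · rw [e]
      refine PS.add (PS.add ?_ ?_) ?_
      · exact hh1.mono fun t ht => (min_le_left _ _).trans (by linarith)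
      · refine PS.mono (P := fun t => a + δ ≤ t) (fun t ht => (min_le_right _ _).trans ht) ?_
        exact PS.map (P := fun t => a ≤ t) (Q := fun t => δ ≤ t)
          (fun s t h1 h2 => by linarith) φ hδ (hlP _ ha)
      · refine PS.mono (P := fun t => M - C ≤ t) (fun t ht => (min_le_left _ _).trans ht) ?_
        exact PS.map (P := fun t => M - c₁ ≤ t) (Q := fun t => |t| ≤ c₂)
          (fun s t h1 h2 => by have := abs_le.1 h2; linarith [this.1]) s₁ hc₂ hdlL
    · intro U hU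
      rw [e]
      change PS χ (fun t => t ≤ max U (M + C)) _
      refine PS.add (PS.add ?_ ?_) ?_
      · exact (hhP (fun t => t ≤ U) hU).mono fun t ht => le_trans ht (le_max_left _ _)
      · refine PS.mono (P := fun t => t ≤ M + C) (fun t ht => ht.trans (le_max_right _ _)) ?_
        exact PS.map (P := fun t => t < M) (Q := fun t => |t| ≤ c₃)
          (fun s t h1 h2 => by have := abs_le.1 h2; linarith [this.2]) φ hc₃ hl1
      · refine PS.mono (P := fun t => t ≤ M + C) (fun t ht => ht.trans (le_max_right _ _)) ?_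
        exact PS.map (P := fun t => t ≤ M + c₁) (Q := fun t => |t| ≤ c₂)
          (fun s t h1 h2 => by have := abs_le.1 h2; linarith [this.2]) s₁ hc₂ hdlU
  -- iterate
  obtain ⟨a₀, -, ha₀⟩ := exists_abs_le (χ := χ) b
  have ha₀' : LB χ (-a₀) b := fun x g hg => (abs_le.1 (ha₀ x g hg)).1
  have iter : ∀ N : ℕ, ∃ u', d₁ u' = d₁ b ∧ LB χ (min (M - C) (-a₀ + N * δ)) u' ∧
      ∀ U : ℝ, UB χ U b → UB χ (max U (M + C)) u' := by
    intro N
    induction N with
    | zero =>
      refine ⟨b, rfl, ?_, ?_⟩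
      · change PS χ (fun t => min (M - C) (-a₀ + ((0 : ℕ) : ℝ) * δ) ≤ t) b
        exact PS.mono (P := fun t => -a₀ ≤ t)
          (fun t ht => (min_le_right _ _).trans (by simpa using ht)) ha₀'
      · intro U hU
        exact PS.mono (P := fun t => t ≤ U) (fun t ht => le_trans ht (le_max_left _ _)) hU
    | succ N ih =>
      obtain ⟨u, hu1, hu2, hu3⟩ := ih
      obtain ⟨u', h1, h2, h3⟩ := step _ u hu1 hu2
      refine ⟨u', h1, ?_, ?_⟩
      · refine PS.mono (P := fun t => min (M - C) (min (M - C) (-a₀ + N * δ) + δ) ≤ t)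
          (fun t ht => le_trans ?_ ht) h2
        push_cast
        refine le_min (min_le_left _ _) ?_
        rw [← min_add_add_right]
        refine le_min ((min_le_left _ _).trans (by linarith)) ((min_le_right _ _).trans ?_)
        linarith
      · intro U hU
        have := h3 _ (hu3 U hU)
        change PS χ (fun t => t ≤ max U (M + C)) _
        refine PS.mono (P := fun t => t ≤ max (max U (M + C)) (M + C)) (fun t ht => ?_) this
        simpa using ht
  obtain ⟨N, hN⟩ := exists_nat_ge ((M - C + a₀) / δ)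
  obtain ⟨u', h1, h2, h3⟩ := iter N
  refine ⟨u', h1, ?_, h3⟩
  refine PS.mono (P := fun t => min (M - C) (-a₀ + N * δ) ≤ t) (fun t ht => le_trans ?_ ht) h2
  refine le_min le_rfl ?_
  have := (div_le_iff₀ hδ0).1 hN
  linarith

/-- Module CUT. -/
theorem cut : CutStatement := by
  classical
  intro k G _ _ χ n F hF hP
  obtain ⟨s, -, hs⟩ := hP
  have key : ∀ q : ℕ, ∃ C : ℝ, 0 ≤ C ∧ (q + 1 ≤ n → ∀ (b : F.X (q + 1) →₀ MonoidAlgebra k G)
      (D : ℝ), LB χ (-D) (F.d q b) → ∃ b', F.d q b' = F.d q b ∧ LB χ (-D - C) b' ∧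
        ∀ U : ℝ, UB χ U b → UB χ (max U (-D + C)) b') := by
    intro q
    by_cases hq : q + 1 ≤ n
    · haveI : Finite (F.X q) := hF q (by omega)
      haveI : Finite (F.X (q + 1)) := hF (q + 1) hq
      obtain ⟨C, h0, h1⟩ := cut_one (χ := χ) (F.d q) (F.d (q + 1)) (fun z => F.isCx q z)
        (s q) (s (q + 1)) (fun x => hs q hq x)
      exact ⟨C, h0, fun _ => h1⟩
    · exact ⟨0, le_rfl, fun h => absurd h hq⟩
  choose C h0 h1 using key
  refine ⟨∑ q ∈ Finset.range n, C q, Finset.sum_nonneg fun q _ => h0 q, ?_⟩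
  intro q hq b D hb
  have hle : C q ≤ ∑ q ∈ Finset.range n, C q :=
    Finset.single_le_sum (f := C) (fun q _ => h0 q) (Finset.mem_range.2 (by omega))
  obtain ⟨b', e1, e2, e3⟩ := h1 q hq b D hb
  refine ⟨b', e1, ?_, ?_⟩
  · exact PS.mono (P := fun t => -D - C q ≤ t) (fun t ht => by linarith) e2
  · intro U hU
    refine PS.mono (P := fun t => t ≤ max U (-D + C q)) (fun t ht => ht.trans ?_) (e3 U hU)
    exact max_le_max le_rfl (by linarith)

end Pool.Agent.Lib.MP_b1a3a4_al.MVS.H19
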