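import Pool.Agent.Lib.MP_b1a3a4_al.MVS.Interfaces

/-!
# Project MVS, module P0: the statement `P(0)`
-/

set_option autoImplicit false
set_option linter.all false

namespace Pool.Agent.Lib.MP_b1a3a4_al.MVS.H19

open Finsupp

/-- Push maps in degree `0` for a group with an element of nonzero value. -/
lemma push_zero {k G : Type} [CommRing k] [Group G] (χ : Chr G) (g₀ : G) (hg₀ : val χ g₀ ≠ 0)
    (F : GRes k G) : Push F.d χ 0 := by
  classical
  obtain ⟨g, hg⟩ : ∃ g : G, 0 < val χ g := by
    rcases lt_or_gt_of_ne hg₀ with h | h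
    · exact ⟨g₀⁻¹, by rw [val_inv]; linarith⟩
    · exact ⟨g₀, h⟩
  have hy : ∀ x : F.X 0, ∃ y, F.d 0 y =
      Finsupp.single x 1 - Finsupp.single x (MonoidAlgebra.single g (1 : k)) := by
    intro x
    rw [← F.ex0, map_sub, sub_eq_zero]
    have h1 : (Finsupp.single x (MonoidAlgebra.single g (1 : k)) :
        F.X 0 →₀ MonoidAlgebra k G) = MonoidAlgebra.single g (1 : k) • Finsupp.single x 1 := by
      rw [Finsupp.smul_single, smul_eq_mul, mul_one]
    rw [h1, map_smul, triv_smul, aug_single]
    exact (one_mul (M := k) (F.ε (Finsupp.single x 1))).symm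
  choose y hy using hy
  refine ⟨fun q => match q with
    | 0 => Finsupp.linearCombination (MonoidAlgebra k G) y
    | q + 1 => 0, ?_, fun q hq => absurd hq (by omega)⟩
  intro x
  change PosV χ (Finsupp.single x 1 - F.d 0
    (Finsupp.linearCombination (MonoidAlgebra k G) y (Finsupp.single x 1)))
  rw [Finsupp.linearCombination_single, one_smul, hy x, sub_sub_cancel]
  intro x' h hh
  by_cases hx : x' = x
  · subst hx
    rw [Finsupp.single_eq_same, MonoidAlgebra.coeff_single] at hh
    have := Finsupp.support_single_subset hh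
    rw [Finset.mem_singleton] at this
    rw [this]
    exact hg
  · rw [Finsupp.single_eq_of_ne hx] at hh
    simp at hh

/-- The generator of the trivial module. -/
def trivOne (k G : Type) [CommRing k] : Triv k G := (1 : k)

/-- The trivial module is finitely generated. -/
lemma fpn_zero (k G : Type) [CommRing k] [Group G] : FPn k G 0 := by
  change Module.Finite (MonoidAlgebra k G) (Triv k G)
  refine ⟨⟨{trivOne k G}, ?_⟩⟩
  rw [eq_top_iff]
  intro x _
  have hx : x = (MonoidAlgebra.single (1 : G) (show k from x) : MonoidAlgebra k G) •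
      trivOne k G := by
    rw [triv_smul, aug_single]
    exact (mul_one (M := k) x).symm
  rw [hx]
  exact Submodule.smul_mem _ _ (Submodule.subset_span (by simp))

/-- Module P0. -/
theorem p0 : P0Statement := by
  intro k _ _ I _ _ L _ U S _
  refine ⟨fpn_zero k S, fun χ hχ F _ => ?_⟩
  obtain ⟨s, -, hs⟩ := hχ ∅ (Finset.empty_subset _) (by simp)
  exact push_zero χ s hs F

end Pool.Agent.Lib.MP_b1a3a4_al.MVS.H19
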